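import Pool.Agent.Y94.UG.Main
set_option autoImplicit false

/-!
Integral `K_2` of the hyperelliptic curves `z + 1/z = F(x)` over `ℚ`, where `F` is an integer
polynomial of degree `g + 1 ≥ 7` which has `g + 1` special integers, that is, different integers
`b_i` with `F(b_i) ∈ {0, ±1, ±2}`: the `g` classes given by the special integers always have
independent regulators, without any condition on the leading coefficient of `F` or on the distances
of the `b_i`.
-/

namespace Pool.Agent.Results.MP_743d1e_nt.AllSpecialPolynomials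

open Polynomial

open Pool.Agent.TH826.MK (KQ symb Torus Unramified)

open Pool.Agent.TH826.HD (PRing POpen pent toP pcst pDel isDomain_PRing pDel_ne_zero liftP
  liftP_toP)

open Pool.Agent.TH826.UH (symb_mem_unramified)

/-- The integer polynomial `F` as a polynomial with rational coefficients. -/
noncomputable def rat (F : ℤ[X]) : ℚ[X] := F.map (Int.castRingHom ℚ)

/-- The integers `b_i` as rational numbers. -/
def bq {n : ℕ} (b : Fin n → ℤ) : Fin n → ℚ := fun i => (b i : ℚ)

/-- The embedding of `ℚ` into `ℂ`. -/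
noncomputable def sq : ℚ →+* ℂ := algebraMap ℚ ℂ

theorem sq_int (n : ℤ) : sq (n : ℚ) = (n : ℂ) := map_intCast sq n

theorem rat_map (F : ℤ[X]) : (rat F).map sq = F.map (Int.castRingHom ℂ) := by
  unfold rat
  rw [Polynomial.map_map]
  congr 1

theorem rat_eval (F : ℤ[X]) (n : ℤ) : (rat F).eval (n : ℚ) = ((F.eval n : ℤ) : ℚ) := by
  unfold rat
  have h2 := Polynomial.eval_map_apply (p := F) (Int.castRingHom ℚ) n
  simpa using h2

/-- Let `g ≥ 6`, let `F` be a polynomial of degree `g + 1` with integer coefficients and let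
`b_0, ..., b_g` be different integers with `|F(b_i)| ≤ 2` for all `i` (special integers: `F(b_i)`
is of the form `ζ + 1/ζ` with a root of unity `ζ`). Then the coordinate ring of the plane curve
`z² - F(x) z + 1 = 0` over `ℚ` is a domain, the curve is smooth at its complex points (it is the
affine part of a hyperelliptic curve of genus `g`), the symbols `{z, (x - b_m) / (x - b_l)}` are
unramified at all discrete valuations of the function field, and there are `g` loops in the complex
points of the open part `∏_m (x - b_m) ≠ 0` of the curve such that the determinant of the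
regulators on the loops of the `g` symbols `{z, (x - b_k) / (x - b_0)}`, `1 ≤ k ≤ g`, does not
vanish. -/
theorem result (g : ℕ) (hg : 6 ≤ g) (F : ℤ[X]) (hdeg : F.natDegree = g + 1)
    (b : Fin (g + 1) → ℤ) (hb : Function.Injective b) (hF : ∀ i, |F.eval (b i)| ≤ 2) :
    IsDomain (PRing (rat F)) ∧
    (∀ x z : ℂ, z ^ 2 - (rat F).eval₂ sq x * z + 1 = 0 →
      2 * z - (rat F).eval₂ sq x ≠ 0 ∨ (derivative (rat F)).eval₂ sq x * z ≠ 0) ∧
    (∀ (L : Type*) [Field L] [Algebra (PRing (rat F)) L] [IsFractionRing (PRing (rat F)) L],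
      ∃ f : POpen (rat F) (bq b) →+* L,
        (∀ r : PRing (rat F), f (toP (rat F) (bq b) r) = algebraMap (PRing (rat F)) L r) ∧
        ∀ m l, KQ.map 2 f (symb (pent (rat F) (bq b) m l)) ∈ Unramified L 2) ∧
    ∃ Γ : Fin g → Torus (POpen (rat F) (bq b)) 1,
      (∀ l θ (y : ℚ), (Γ l).e θ (pcst (rat F) (bq b) y) = (y : ℂ)) ∧
      (Matrix.of fun l k : Fin g =>
        (Γ l).reg (symb (pent (rat F) (bq b) k.succ 0))).det ≠ 0 := by
  obtain ⟨η, H⟩ := Pool.Agent.Y94.UG.exists_sepd hg hdeg hb hF
  have hmap := rat_map F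
  have hsb : (fun j => sq (bq b j)) = fun j => ((b j : ℤ) : ℂ) := by
    funext j
    exact sq_int _
  have H' : Pool.Agent.TH826.UH.Sepd ((rat F).map sq) (fun j => sq (bq b j)) (1 / 8) η := by
    rw [hmap, hsb]
    exact H
  have hti : ∀ i, ∃ (ζ : ℂ) (k : ℕ), k ≠ 0 ∧ ζ ^ k = 1 ∧
      sq ((rat F).eval (bq b i)) = ζ + ζ⁻¹ := by
    intro i
    unfold bq
    rw [rat_eval, sq_int]
    exact Pool.Agent.Y94.UG.exists_zeta (hF i)
  have hti' : ∀ i, ∃ ζ : ℂ, ‖ζ‖ = 1 ∧ sq ((rat F).eval (bq b i)) = ζ + ζ⁻¹ := by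
    intro i
    obtain ⟨ζ, k, hk, h1, h2⟩ := hti i
    refine ⟨ζ, ?_, h2⟩
    have h3 := congrArg norm h1
    rw [norm_pow, norm_one] at h3
    exact (pow_eq_one_iff_of_nonneg (norm_nonneg _) hk).1 h3
  have hint : ∀ i, IsIntegral ℤ ((rat F).coeff i) := by
    intro i
    unfold rat
    rw [Polynomial.coeff_map]
    exact isIntegral_algebraMap (R := ℤ) (A := ℚ) (x := F.coeff i)
  have hdegF : 0 < (rat F).natDegree := by
    have h1 := H'.deg
    rw [Polynomial.natDegree_map] at h1
    omega
  have hdist : ∀ i j, ‖sq (bq b j) - sq (bq b i)‖ = |(b i : ℝ) - b j| := by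
    intro i j
    have h1 : sq (bq b j) - sq (bq b i) = (((b j : ℝ) - b i : ℝ) : ℂ) := by
      rw [show sq (bq b i) = ((b i : ℤ) : ℂ) from sq_int _,
        show sq (bq b j) = ((b j : ℤ) : ℂ) from sq_int _]
      push_cast
      ring
    rw [h1, Complex.norm_real, Real.norm_eq_abs, abs_sub_comm]
  have hlead : 0 ≤ Real.log ‖((rat F).map sq).leadingCoeff‖ := by
    refine Real.log_nonneg ?_
    rw [hmap, leadingCoeff_map_of_injective (Int.cast_injective : Function.Injective
      (Int.castRingHom ℂ))]
    have h0 : F.leadingCoeff ≠ 0 := by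
      rw [Ne, leadingCoeff_eq_zero]
      rintro rfl
      rw [natDegree_zero] at hdeg
      omega
    have h1 : ‖(Int.castRingHom ℂ) F.leadingCoeff‖ = |(F.leadingCoeff : ℝ)| := by
      rw [show (Int.castRingHom ℂ) F.leadingCoeff = ((F.leadingCoeff : ℤ) : ℂ) from rfl,
        Complex.norm_intCast]
    rw [h1]
    have := Int.one_le_abs h0
    exact_mod_cast this
  refine ⟨isDomain_PRing hdegF, fun x z h => Pool.Agent.TH826.UH.smooth_of_sepd H' h, ?_, ?_⟩
  · intro L _ _ _
    have hinj : Function.Injective (algebraMap (PRing (rat F)) L) :=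
      IsFractionRing.injective _ _
    have hne : algebraMap (PRing (rat F)) L (pDel (rat F) (bq b)) ≠ 0 := by
      rw [Ne, map_eq_zero_iff _ hinj]
      exact pDel_ne_zero (bq b)
    exact ⟨liftP (algebraMap (PRing (rat F)) L) hne, fun r => liftP_toP _ _ _,
      fun m l => symb_mem_unramified _ sq hint (fun i => by
        unfold bq
        exact isIntegral_algebraMap (R := ℤ) (x := b i)) m l hti⟩
  · refine Pool.Agent.Y94.UG.exists_loops H' (fun i j => |(b i : ℝ) - b j| - 1 / 8)
      (fun i j hij => ?_) (fun p q hpq => ?_) hti'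
    · have h1 : (1 : ℤ) ≤ |b i - b j| := Int.one_le_abs (sub_ne_zero.2 (hb.ne hij))
      have h2 : (1 : ℝ) ≤ |(b i : ℝ) - b j| := by exact_mod_cast h1
      refine ⟨by linarith, ?_⟩
      rw [hdist]
      linarith
    · have h1 := Pool.Agent.Y94.UG.crit hg hb p q hpq
      linarith

end Pool.Agent.Results.MP_743d1e_nt.AllSpecialPolynomials
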