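import Pool.Agent.Y797.FP.Dom
import Pool.Agent.Y797.FP.Ind
set_option autoImplicit false

/-!
Integral elements of `K_2` on the curves `z_e + 1/z_e = t_e + ∏_k P_{e,k}(x)`, `e = 1, ..., m`,
over number fields, for example over `ℚ`, without a large parameter.
-/

namespace Pool.Agent.Results.MP_743d1e_nt.FibreProducts

open Pool.Agent.Y797.FP

/-- Let `K` be a number field, for example `ℚ`, with an embedding `σ` in `ℂ`, and for
`e = 1, ..., m` let `P_{e,0}, ..., P_{e,r_e}` be monic polynomials of positive degree over `K` with
algebraic integers as coefficients, and `t_e` an element of `K` which is of the form `ζ + 1/ζ` with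
a root of unity `ζ` (over `ℚ`: `t_e = 0, ±1, ±2`). Suppose that the product of all `P_{e,k}` is
separable and that its complex roots have mutual distances at least `9`. Then the coordinate ring of
the affine curve `z_e + 1/z_e = F_e(x)`, `F_e = t_e + ∏_k P_{e,k}`, `e = 1, ..., m`, and that of its
open part on which no `P_{e,k}(x)` vanishes are domains, and the curve is smooth over `σ`; the
symbols `{z_e, z_f}` (`e ≠ f`) and `{z_e, P_{e,k} / P_{e,0}}` (`1 ≤ k ≤ r_e`) in `K_2` of the open
part are unramified at all discrete valuations of all fields over the coordinate ring; and the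
regulators of the `m (m - 1) / 2 + r_1 + ... + r_m` symbols `{z_e, z_f}`, `e < f`, and
`{z_e, P_{e,k} / P_{e,0}}` are linearly independent over `ℝ` as functions on the loops in the
complex points over `σ` of the open part. -/
theorem result.{u, v} (K : Type u) [Field K] [NumberField K] (σ : K →+* ℂ) (m : ℕ) (D : Dat K m)
    (hI : D.Integral) (hC : D.Cyclotomic σ) (hS : D.Separated σ) :
    IsDomain D.CRing ∧ IsDomain D.Open ∧ D.Smooth σ ∧ Dat.UnramifiedSymbols.{u, v} D ∧
      D.IndependentRegulators σ :=
  ⟨isDomain_CRing hI hC hS, isDomain_Open hI hC hS, smooth hI hC hS, unramified hI hC,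
    independent hI hC hS⟩

end Pool.Agent.Results.MP_743d1e_nt.FibreProducts
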